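import Mathlib

/-!
# Hyperopic Cops and Robber
-/

namespace Pool.Agent.R5.HY

variable {V : Type*} {W : Type*} {k : ℕ}

/-- What the cops on the vertices `p` see of a robber on `r`: nothing (`none`) if the vertex of the
robber is adjacent to the vertex of every cop, and the vertex `r` otherwise. -/
noncomputable def obs (G : SimpleGraph V) (p : Fin k → V) (r : V) : Option V :=
  open Classical in if ∀ i, G.Adj (p i) r then none else some r

/-- The observations made by the cops who play the strategy `S` against the sequence of positions
`r` of the robber. `(play G S r n).1` is the list of the observations made before the cops occupy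
their `n`-th positions (most recent observation first), `(play G S r n).2` is the list of the
observations made before the robber occupies his `n`-th position. The cops observe after each move
of the robber and after each of their own moves. The `n`-th positions of the cops are
`S (play G S r n).1`. -/
noncomputable def play (G : SimpleGraph V) (S : List (Option V) → Fin k → V) (r : ℕ → V) :
    ℕ → List (Option V) × List (Option V)
  | 0 => ([], [])
  | n + 1 =>
    (obs G (S (play G S r n).1) (r n) :: (play G S r n).2,
      obs G (S (obs G (S (play G S r n).1) (r n) :: (play G S r n).2)) (r n) ::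
        obs G (S (play G S r n).1) (r n) :: (play G S r n).2)

/-- `k` cops win the hyperopic game on `G`. Here `S` is the strategy, giving the new positions of
the cops as a function of all observations made so far (`S []` is the initial placement). For every
legal sequence `r` of positions of the robber (`r 0` is his starting vertex) the moves of the cops
are legal, and at some moment some cop is on the vertex of the robber: either after the `n`-th
placement or move of the robber, or after the following move of the cops. -/
def HWin (G : SimpleGraph V) (k : ℕ) : Prop :=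
  ∃ S : List (Option V) → Fin k → V, ∀ r : ℕ → V,
    (∀ n, r n = r (n + 1) ∨ G.Adj (r n) (r (n + 1))) →
      (∀ n i, S (play G S r n).1 i = S (play G S r (n + 1)).1 i ∨
        G.Adj (S (play G S r n).1 i) (S (play G S r (n + 1)).1 i)) ∧
      ∃ n i, S (play G S r n).1 i = r n ∨ S (play G S r (n + 1)).1 i = r n

/-- The hyperopic cop number. -/
noncomputable def cH (G : SimpleGraph V) : ℕ := sInf {k | HWin G k}

/-- The least size of a small common neighbourhood set: a nonempty set `S` of vertices which have
at most `|S|` common neighbours. -/
noncomputable def upsilon (G : SimpleGraph V) : ℕ :=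
  sInf {s | ∃ S : Finset V, S.Nonempty ∧ S.card = s ∧ {v | ∀ u ∈ S, G.Adj u v}.ncard ≤ s}

/-- The join of two graphs. -/
def join (G : SimpleGraph V) (J : SimpleGraph W) : SimpleGraph (V ⊕ W) where
  Adj
    | Sum.inl a, Sum.inl b => G.Adj a b
    | Sum.inr a, Sum.inr b => J.Adj a b
    | _, _ => True
  symm := by
    constructor
    rintro (a | a) (b | b) h
    · exact G.adj_symm h
    · trivial
    · trivial
    · exact J.adj_symm h
  loopless := by
    constructor
    rintro (a | a) h
    · exact G.loopless.irrefl _ h
    · exact J.loopless.irrefl _ h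

@[simp] lemma join_inl_inl {G : SimpleGraph V} {J : SimpleGraph W} {a b : V} :
    (join G J).Adj (Sum.inl a) (Sum.inl b) ↔ G.Adj a b := Iff.rfl
@[simp] lemma join_inr_inr {G : SimpleGraph V} {J : SimpleGraph W} {a b : W} :
    (join G J).Adj (Sum.inr a) (Sum.inr b) ↔ J.Adj a b := Iff.rfl
@[simp] lemma join_inl_inr {G : SimpleGraph V} {J : SimpleGraph W} {a : V} {b : W} :
    (join G J).Adj (Sum.inl a) (Sum.inr b) := trivial
@[simp] lemma join_inr_inl {G : SimpleGraph V} {J : SimpleGraph W} {a : V} {b : W} :
    (join G J).Adj (Sum.inr b) (Sum.inl a) := trivial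

/-- As many cops as there are vertices win. -/
lemma HWin_card (G : SimpleGraph V) [Fintype V] : HWin G (Fintype.card V) := by
  refine ⟨fun _ => (Fintype.equivFin V).symm, fun r _ => ⟨fun n i => Or.inl rfl, ?_⟩⟩
  exact ⟨0, Fintype.equivFin V (r 0), Or.inl (by simp)⟩

lemma lt_cH {G : SimpleGraph V} [Fintype V] {m : ℕ} (h : ∀ k ≤ m, ¬ HWin G k) : m < cH G := by
  have : m + 1 ≤ cH G := by
    refine le_csInf (s := {k | HWin G k}) ⟨_, HWin_card G⟩ ?_
    intro b hb
    by_contra hcon
    exact h b (by omega) hb
  omega

/-- The lists of observations when the robber always occupies the vertex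
`f (positions of the cops) (next positions of the cops if he is invisible)`. -/
noncomputable def rp (G : SimpleGraph V) (S : List (Option V) → Fin k → V)
    (f : (Fin k → V) → (Fin k → V) → V) : ℕ → List (Option V) × List (Option V)
  | 0 => ([], [])
  | n + 1 =>
    (obs G (S (rp G S f n).1) (f (S (rp G S f n).1) (S (none :: (rp G S f n).2))) ::
        (rp G S f n).2,
      obs G (S (obs G (S (rp G S f n).1) (f (S (rp G S f n).1) (S (none :: (rp G S f n).2))) ::
        (rp G S f n).2)) (f (S (rp G S f n).1) (S (none :: (rp G S f n).2))) ::
        obs G (S (rp G S f n).1) (f (S (rp G S f n).1) (S (none :: (rp G S f n).2))) ::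
        (rp G S f n).2)

/-- A general criterion for the robber: `f P Q` is a vertex where he survives if the cops are on `P`
and, in case he is invisible, will go to `Q`. -/
lemma not_HWin {G : SimpleGraph V} {k : ℕ} (f : (Fin k → V) → (Fin k → V) → V)
    (hmove : ∀ P Q P' Q', f P Q = f P' Q' ∨ G.Adj (f P Q) (f P' Q'))
    (hP : ∀ P Q i, P i ≠ f P Q)
    (hQ : ∀ P Q, (∀ i, G.Adj (P i) (f P Q)) → ∀ i, Q i ≠ f P Q)
    (hseen : ∀ (P Q P' : Fin k → V), (¬ ∀ i, G.Adj (P i) (f P Q)) → (∀ i, P i = P' i ∨ G.Adj (P i) (P' i)) →
      ∀ i, P' i ≠ f P Q) : ¬ HWin G k := by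
  rintro ⟨S, hS⟩
  set r : ℕ → V := fun n => f (S (rp G S f n).1) (S (none :: (rp G S f n).2)) with hr
  have hpl : ∀ n, play G S r n = rp G S f n := by
    intro n
    induction n with
    | zero => rfl
    | succ n ih =>
      show (_, _) = _
      rw [ih]
      rfl
  obtain ⟨hleg, n, i, h⟩ := hS r (fun n => hmove _ _ _ _)
  rw [hpl] at h
  rcases h with h | h
  · exact hP _ _ _ h
  · by_cases hinv : ∀ i, G.Adj (S (rp G S f n).1 i)
        (f (S (rp G S f n).1) (S (none :: (rp G S f n).2)))
    · have h1 : (play G S r (n + 1)).1 = none :: (rp G S f n).2 := by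
        rw [hpl]
        show obs _ _ _ :: _ = _
        simp only [obs, if_pos hinv]
      rw [h1] at h
      exact hQ _ _ hinv i h
    · have h2 := hleg n
      rw [hpl n] at h2
      exact hseen _ _ _ hinv h2 i h

end Pool.Agent.R5.HY
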